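import Pool.Agent.W2helper7.FA.Inf

/-!
# Quadratic twists of hyperelliptic curves with nontrivial rational points: an upper bound

Let `F ∈ ℤ[x]` have no repeated roots and degree `2 g + 1` or `2 g + 2`, `g ≥ 2`, and let `N_F(B)` be the
number of squarefree integers `d`, `|d| < B`, for which the twist `d y² = F(x)` has a rational point with
`y ≠ 0`. According to Granville's conjecture `N_F(B)` grows like `B ^ (1 / (g + 1))`. We prove, without
any unproved hypothesis, that

  `N_F(B) ≤ C B (log B) ^ (-δ)` for some `δ > 0`, `C`,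

so that almost all the twists have only trivial rational points, for the following `F`. Let
`F = ∏ k, f k` with irreducible `f k`. The factors of the branch form of the curve are the forms
`F_k(x, w)`, the homogenisations of the `f k`, and, if the degree of `F` is odd, the form `w`, which
vanishes at infinity. We assume that

* at least four of these factors have odd degree,
* a condition on the linear factors, i.e. on the rational Weierstrass points, which excludes certain
  coincidences of square classes: for any two of them some product of other factors, of even degree, has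
  values at these two points which are not in the same square class (and a similar condition if there
  are exactly four factors of odd degree and they are all linear). It is empty if there is at most one
  rational Weierstrass point.

For example, let `F` be a product of irreducible polynomials of degrees at least three, such that `F` has
odd degree, and at least three of the factors have odd degree. (The twists are locally soluble
everywhere: there is a rational point at infinity.)

Method. The number of the twists with rational points which are not of constant type (constant type: the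
values of the factors at the point lie in the square classes of their values at one of the rational
Weierstrass points) is small; this is `Pool.Agent.Y488.TM` of the starting library. The
points of constant type have finitely many abscissae: Mordell's conjecture for multiquadratic coverings
of the line with five branch points (projects BT and HE of helper83 and helper6, from the curve
`y² = x⁶ + 1` of the starting library). The point at infinity is moved to a finite point.
-/

set_option autoImplicit false

namespace Pool.Agent.Results.MP_f4d5ac_nt.AlmostAllTwists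

open Finset Polynomial

section

variable {K : Type} [Fintype K] [DecidableEq K]

/-- the degrees of the factors of the branch form; `none` is the factor `w` -/
def deg (f : K → ℤ[X]) (l : Option K) : ℕ := l.elim 1 fun k => (f k).natDegree

/-- the factors of the branch form: the homogenisations of the `f k`, and `w` -/
noncomputable def factor (f : K → ℤ[X]) (l : Option K) (x w : ℤ) : ℤ :=
  l.elim w fun k => ∑ i ∈ range ((f k).natDegree + 1),
    (f k).coeff i * x ^ i * w ^ ((f k).natDegree - i)

/-- the zero `(-b, a)` of a linear factor `a x + b w`, and the zero `(1, 0)` of `w` -/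
def zero (f : K → ℤ[X]) (l : Option K) : ℤ × ℤ :=
  l.elim (1, 0) fun k => (-(f k).coeff 0, (f k).coeff 1)

/-- the value of the factor `l` at the zero of the linear factor `i` -/
noncomputable def value (f : K → ℤ[X]) (i l : Option K) : ℤ := factor f l (zero f i).1 (zero f i).2

/-- the factors which occur: `w` occurs if the degree of `∏ k, f k` is odd -/
def Occ (f : K → ℤ[X]) : Finset (Option K) :=
  if Odd (∑ k, (f k).natDegree) then univ else univ.erase none

/-- the factors of odd degree -/
def Od (f : K → ℤ[X]) : Finset (Option K) := (Occ f).filter fun l => Odd (deg f l)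

/-- the linear factors -/
def Ln (f : K → ℤ[X]) : Finset (Option K) := (Occ f).filter fun l => deg f l = 1

/-- the `f k` are irreducible over `ℚ`, pairwise non-associated, the degree of `∏ k, f k` is at least
five, and the branch form has at least four factors of odd degree -/
def Factors (f : K → ℤ[X]) : Prop :=
  (∀ k, Irreducible ((f k).map (Int.castRingHom ℚ))) ∧
  (∀ k l, k ≠ l →
    ¬ Associated ((f k).map (Int.castRingHom ℚ)) ((f l).map (Int.castRingHom ℚ))) ∧
  5 ≤ ∑ k, (f k).natDegree ∧ 4 ≤ (Od f).card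

/-- the condition on the linear factors -/
def General (f : K → ℤ[X]) : Prop :=
  (∀ i ∈ Ln f, ∀ k ∈ Ln f, i ≠ k → ∃ T ⊆ Occ f, i ∉ T ∧ k ∉ T ∧ Even (∑ l ∈ T, deg f l) ∧
    ¬ IsSquare (∏ l ∈ T, (value f i l * value f k l))) ∧
  ((Od f).card = 4 → Od f ⊆ Ln f → ∃ i ∈ Od f, ∃ k ∈ Od f, ∃ T ⊆ Occ f,
    Disjoint T (Od f) ∧ ¬ IsSquare (∏ l ∈ T, (value f i l * value f k l)))

omit [Fintype K] [DecidableEq K] in
lemma deg_eq (f : K → ℤ[X]) (l : Option K) : deg f l = Pool.Agent.W2helper7.FA.Dg f l := by
  cases l <;> rfl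

omit [Fintype K] [DecidableEq K] in
lemma value_eq (f : K → ℤ[X]) (i l : Option K) : value f i l = Pool.Agent.W2helper7.FA.vl f i l := by
  cases i <;> cases l <;> rfl

omit [Fintype K] [DecidableEq K] in
lemma value_some (f : K → ℤ[X]) (i k : K) :
    value f (some i) (some k) = Pool.Agent.Y488.TM.val f i k := rfl

/-- the exceptional set -/
def Exc (F : ℤ[X]) (B : ℕ) : Set ℤ := {d : ℤ | |d| < (B : ℤ) ∧ Squarefree d ∧
  ∃ x y : ℚ, y ≠ 0 ∧ (d : ℚ) * y ^ 2 = (F.map (Int.castRingHom ℚ)).eval x}

lemma even_of_disj {J : Type} [DecidableEq J] {n : J → ℕ} {T : Finset J}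
    (h : ∀ l ∈ T, ¬ Odd (n l)) : Even (∑ l ∈ T, n l) :=
  Finset.sum_induction _ Even (fun _ _ => Even.add) Even.zero
    fun l hl => Nat.not_odd_iff_even.1 (h l hl)

/-- even degree -/
lemma even_case {f : K → ℤ[X]} (hF : Factors f) (hG : General f)
    (hn : ¬ Odd (∑ k, (f k).natDegree)) : ∃ δ : ℝ, 0 < δ ∧ ∃ C : ℝ, ∀ B : ℕ, 3 ≤ B →
      ((Exc (∏ k, f k) B).ncard : ℝ) ≤ C * B * (Real.log B) ^ (-δ) := by
  have hOcc : Occ f = univ.erase none := if_neg hn
  have hOd : Od f = (Pool.Agent.Y488.TM.Od f).map Function.Embedding.some := by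
    ext l
    cases l with
    | none => simp [Od, hOcc]
    | some k =>
      simp [Od, hOcc, Pool.Agent.Y488.TM.Od, deg]
  have hLn : ∀ i, some i ∈ Ln f ↔ i ∈ Pool.Agent.Y488.TM.Ln f := by
    intro i
    simp [Ln, hOcc, Pool.Agent.Y488.TM.Ln, deg]
  have hT : ∀ T ⊆ Occ f, T = (eraseNone T).map Function.Embedding.some := by
    intro T hT
    rw [map_some_eraseNone, erase_eq_of_notMem]
    intro h
    have := hT h
    rw [hOcc] at this
    exact (mem_erase.1 this).1 rfl
  have hprod : ∀ T ⊆ Occ f, ∀ i k : K, ∏ l ∈ T, (value f (some i) l * value f (some k) l) =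
      ∏ l ∈ eraseNone T, (Pool.Agent.Y488.TM.val f i l * Pool.Agent.Y488.TM.val f k l) := by
    intro T hT' i k
    conv_lhs => rw [hT T hT']
    rw [prod_map]
    rfl
  have hH : Pool.Agent.Y488.TM.Hyp f := by
    refine ⟨hF.1, hF.2.1, Nat.not_odd_iff_even.1 hn, ?_, ?_, ?_⟩
    · have h4 := hF.2.2.2
      rw [hOd, card_map] at h4
      exact h4
    · intro i hi k hk hik
      obtain ⟨T, hTO, h1, h2, h3, h4⟩ := hG.1 (some i) ((hLn i).2 hi) (some k) ((hLn k).2 hk)
        (fun h => hik (Option.some_injective _ h))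
      refine ⟨eraseNone T, ?_, ?_, ?_, ?_⟩
      · rw [mem_eraseNone]; exact h1
      · rw [mem_eraseNone]; exact h2
      · rw [← Pool.Agent.Y488.TM.even_iff]
        have h5 : ∑ l ∈ T, deg f l = ∑ l ∈ eraseNone T, (f l).natDegree := by
          conv_lhs => rw [hT T hTO]
          rw [sum_map]
          rfl
        rw [← h5]
        exact h3
      · rw [← hprod T hTO]
        exact h4
    · intro h4 hs
      have h4' : (Od f).card = 4 := by rw [hOd, card_map]; exact h4
      have hs' : Od f ⊆ Ln f := by
        rw [hOd]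
        intro l hl
        obtain ⟨k, hk, rfl⟩ := mem_map.1 hl
        exact (hLn k).2 (hs hk)
      obtain ⟨i, hi, k, hk, T, hTO, h5, h6⟩ := hG.2 h4' hs'
      rw [hOd] at hi hk h5
      obtain ⟨i, hi1, rfl⟩ := mem_map.1 hi
      obtain ⟨k, hk1, rfl⟩ := mem_map.1 hk
      refine ⟨i, hi1, k, hk1, eraseNone T, ?_, ?_⟩
      · rw [disjoint_left] at h5 ⊢
        intro l hl hl'
        exact h5 (mem_eraseNone.1 hl) (mem_map.2 ⟨l, hl', rfl⟩)
      · rw [← hprod T hTO]
        exact h6
  have h6 : 6 ≤ ∑ k, (f k).natDegree := by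
    have h5 := hF.2.2.1
    have := Nat.not_odd_iff_even.1 hn
    rcases this with ⟨n, hn'⟩
    omega
  obtain ⟨δ, hδ, C, hC⟩ := Pool.Agent.Y488.TM.main2 f hH
    (Pool.Agent.W2helper7.FA.fin_TM hF.1 hF.2.1 hH.four h6)
  refine ⟨δ, hδ, C, fun X hX => le_trans ?_ (hC X hX)⟩
  refine Nat.cast_le.2 (Set.ncard_le_ncard ?_ (Pool.Agent.TH213.SP.fin_le X _))
  rintro d ⟨h1, h2, x, y, hy, hP⟩
  refine ⟨by have h := Int.abs_eq_natAbs d; omega, h2, x, 1, y, hy, ?_⟩
  rw [hP, Polynomial.map_prod, eval_prod]
  refine prod_congr rfl fun k _ => ?_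
  rw [Pool.Agent.W2helper7.FA.hom_eval _ _ _ one_ne_zero, one_pow, one_mul, div_one]

/-- odd degree -/
lemma odd_case {f : K → ℤ[X]} (hF : Factors f) (hG : General f)
    (hn : Odd (∑ k, (f k).natDegree)) : ∃ δ : ℝ, 0 < δ ∧ ∃ C : ℝ, ∀ B : ℕ, 3 ≤ B →
      ((Exc (∏ k, f k) B).ncard : ℝ) ≤ C * B * (Real.log B) ^ (-δ) := by
  have hOcc : Occ f = univ := if_pos hn
  have hf0 : ∀ k, f k ≠ 0 := by
    intro k h
    apply (hF.1 k).ne_zero
    rw [h, Polynomial.map_zero]
  obtain ⟨c, hc⟩ : ∃ c : ℤ, ∀ k, (f k).eval c ≠ 0 := by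
    by_contra hcon
    push Not at hcon
    have hP : (∏ k, f k) = 0 := by
      apply Polynomial.eq_zero_of_infinite_isRoot
      have : {x : ℤ | (∏ k, f k).IsRoot x} = Set.univ := by
        ext x
        simp only [Set.mem_ofPred_eq, Set.mem_univ, iff_true]
        obtain ⟨k, hk⟩ := hcon x
        rw [IsRoot.def, eval_prod]
        exact prod_eq_zero (mem_univ k) hk
      rw [this]
      exact Set.infinite_univ
    exact (prod_ne_zero_iff.2 fun k _ => hf0 k) hP
  obtain ⟨g, hg⟩ : ∃ g, g = Pool.Agent.W2helper7.FA.fam f c := ⟨_, rfl⟩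
  have hdeg : ∀ l, (g l).natDegree = deg f l := by
    intro l
    rw [hg, deg_eq]
    exact Pool.Agent.W2helper7.FA.fam_deg hc l
  have hOd : Od f = Pool.Agent.Y488.TM.Od g := by
    unfold Od Pool.Agent.Y488.TM.Od
    rw [hOcc]
    exact filter_congr fun l _ => by rw [hdeg]
  have hLn : Ln f = Pool.Agent.Y488.TM.Ln g := by
    unfold Ln Pool.Agent.Y488.TM.Ln
    rw [hOcc]
    exact filter_congr fun l _ => by rw [hdeg]
  have hprod : ∀ i k : Option K, deg f i = 1 → deg f k = 1 → ∀ T : Finset (Option K),
      Even (∑ l ∈ T, deg f l) →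
      ∏ l ∈ T, (Pool.Agent.Y488.TM.val g i l * Pool.Agent.Y488.TM.val g k l) =
        ∏ l ∈ T, (value f i l * value f k l) := by
    intro i k hi hk T hT
    have h1 : ∀ l, Pool.Agent.Y488.TM.val g i l * Pool.Agent.Y488.TM.val g k l =
        (Pool.Agent.W2helper7.FA.sg i * Pool.Agent.W2helper7.FA.sg k) ^ deg f l *
          (value f i l * value f k l) := by
      intro l
      rw [hg, Pool.Agent.W2helper7.FA.fam_val hc (by rw [← deg_eq]; exact hi),
        Pool.Agent.W2helper7.FA.fam_val hc (by rw [← deg_eq]; exact hk), value_eq, value_eq, deg_eq,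
        mul_pow]
      ring
    rw [prod_congr rfl fun l _ => h1 l, prod_mul_distrib, prod_pow_eq_pow_sum]
    have h2 : (Pool.Agent.W2helper7.FA.sg i * Pool.Agent.W2helper7.FA.sg k) ^ (∑ l ∈ T, deg f l) = 1 := by
      have h3 : (Pool.Agent.W2helper7.FA.sg i * Pool.Agent.W2helper7.FA.sg k) = 1 ∨
          (Pool.Agent.W2helper7.FA.sg i * Pool.Agent.W2helper7.FA.sg k) = -1 := by
        cases i <;> cases k <;> simp [Pool.Agent.W2helper7.FA.sg]
      rcases h3 with h3 | h3
      · rw [h3, one_pow]
      · rw [h3, hT.neg_one_pow]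
    rw [h2, one_mul]
  have hlin : ∀ i, i ∈ Ln f → deg f i = 1 := fun i hi => (mem_filter.1 hi).2
  have hH : Pool.Agent.Y488.TM.Hyp g := by
    refine ⟨?_, ?_, ?_, ?_, ?_, ?_⟩
    · rw [hg]
      exact Pool.Agent.W2helper7.FA.fam_irr hc hF.1
    · rw [hg]
      exact Pool.Agent.W2helper7.FA.fam_ass hc hF.1 hF.2.1
    · rw [sum_congr rfl fun l _ => hdeg l, Fintype.sum_option]
      show Even (1 + ∑ k, (f k).natDegree)
      exact odd_one.add_odd hn
    · rw [← hOd]
      exact hF.2.2.2
    · intro i hi k hk hik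
      rw [← hLn] at hi hk
      obtain ⟨T, -, h1, h2, h3, h4⟩ := hG.1 i hi k hk hik
      refine ⟨T, h1, h2, ?_, ?_⟩
      · rw [← Pool.Agent.Y488.TM.even_iff, sum_congr rfl fun l _ => hdeg l]
        exact h3
      · rw [hprod i k (hlin i hi) (hlin k hk) T h3]
        exact h4
    · intro h4 hs
      rw [← hOd] at h4 hs ⊢
      rw [← hLn] at hs
      obtain ⟨i, hi, k, hk, T, -, h5, h6⟩ := hG.2 h4 hs
      refine ⟨i, hi, k, hk, T, h5, ?_⟩
      have h3 : Even (∑ l ∈ T, deg f l) := by
        apply even_of_disj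
        intro l hl ho
        rw [disjoint_left] at h5
        apply h5 hl
        unfold Od
        rw [hOcc]
        exact mem_filter.2 ⟨mem_univ l, ho⟩
      rw [hprod i k (hlin i (hs hi)) (hlin k (hs hk)) T h3]
      exact h6
  have h6 : 6 ≤ ∑ l, (g l).natDegree := by
    rw [sum_congr rfl fun l _ => hdeg l, Fintype.sum_option]
    show 6 ≤ 1 + ∑ k, (f k).natDegree
    have := hF.2.2.1
    omega
  obtain ⟨δ, hδ, C, hC⟩ := Pool.Agent.Y488.TM.main2 g hH
    (Pool.Agent.W2helper7.FA.fin_TM hH.irr hH.ass hH.four h6)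
  refine ⟨δ, hδ, C, fun X hX => le_trans ?_ (hC X hX)⟩
  refine Nat.cast_le.2 (Set.ncard_le_ncard ?_ (Pool.Agent.TH213.SP.fin_le X _))
  rintro d ⟨h1, h2, x, y, hy, hP⟩
  refine ⟨by have h := Int.abs_eq_natAbs d; omega, h2, 1, x - c, y, hy, ?_⟩
  rw [hP, Polynomial.map_prod, eval_prod, hg, Fintype.prod_option]
  have e0 : Pool.Agent.W262.TW.hom (Pool.Agent.W2helper7.FA.fam f c none) (1 : ℚ) (x - c) = 1 :=
    Pool.Agent.W2helper7.FA.hom_X (1 : ℚ) (x - c)
  rw [e0, one_mul]
  refine prod_congr rfl fun k _ => ?_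
  have e1 : Pool.Agent.W262.TW.hom (Pool.Agent.W2helper7.FA.fam f c (some k)) (1 : ℚ) (x - c) =
      Pool.Agent.W262.TW.hom (f k) ((c : ℚ) * 1 + (x - c)) 1 :=
    Pool.Agent.W2helper7.FA.hom_MZ c (hc k) 1 (x - c)
  rw [e1, Pool.Agent.W2helper7.FA.hom_eval _ _ _ one_ne_zero, one_pow, one_mul, div_one]
  congr 1
  ring

end

theorem result (K : Type) [Fintype K] [DecidableEq K] (f : K → ℤ[X]) (hF : Factors f)
    (hG : General f) :
    ∃ δ : ℝ, 0 < δ ∧ ∃ C : ℝ, ∀ B : ℕ, 3 ≤ B →
      ((Exc (∏ k, f k) B).ncard : ℝ) ≤ C * B * (Real.log B) ^ (-δ) := by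
  by_cases hn : Odd (∑ k, (f k).natDegree)
  · exact odd_case hF hG hn
  · exact even_case hF hG hn

end Pool.Agent.Results.MP_f4d5ac_nt.AlmostAllTwists
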