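import Pool.Agent.W2helper36.HT.J

/-!
# Squarefree twists with a nontrivial rational point of small height (MP_f4d5ac_nt)

Let `f ∈ ℤ[x]` be separable of degree `2 g + 1` or `2 g + 2`, `g ≥ 2`, and suppose that `f` splits
into linear factors over `ℚ`. Consider the squarefree `d`, `|d| < B`, such that `d y² = f(x)` has a
rational point with `y ≠ 0` and with `H(x) ≤ T`. For `T = B^A`, `A < 5/(6(g+1))`, there are at most
`C B^(1/(g+1))` of them, the order of magnitude in the conjecture. For `T = R B^(5/(6(g+1)))` there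
are at most `C B^(1/(g+1) + ε)`.

Proof. Let `x = u/w`. Then `d q² = c ∏ L_i(u, w)` with `2 g + 2` pairwise non-proportional integral
linear forms. Write `|L_i(u, w)| = e_i z_i²` with `e_i` squarefree; then `∏ e_i ≪ B`, so the product
of the `z_i` is large. For a subfamily of the `z_i` with product `P` the coprime points `(u, w)` with
`z_i² ∣ L_i(u, w)` for its members have pairwise determinants divisible by `P² / O(1)`, so at most
`O(1 + U V / P²)` of them have `|(u, w)| ≤ U`, `min |L_i(u, w)| ≤ V`. One takes a minimal subfamily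
with `P ≥ κ U V / B^(1/(g+1))` (times a small power of `U / B^(1/(2g+2))`); then
`P ≪ max(U, (U² / B^(1/(g+1)))^(3/2))`, which is at most `B^(1/(g+1))` in the range in question.
-/

set_option autoImplicit false

namespace Pool.Agent.Results.MP_f4d5ac_nt.PointsOfSmallHeight

/-- The height of a rational number: the larger of the denominator and the absolute value of the
numerator (in lowest terms). -/
def height (x : ℚ) : ℕ := max x.num.natAbs x.den

/-- The squarefree integers `d` with `|d| < B` such that `d y² = f(x)` has a rational solution with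
`y ≠ 0` and `height x ≤ T`. -/
def twists (f : Polynomial ℤ) (B T : ℝ) : Set ℤ :=
  {d : ℤ | |(d : ℝ)| < B ∧ Squarefree d ∧ ∃ x y : ℚ, y ≠ 0 ∧
    (d : ℚ) * y ^ 2 = (f.map (Int.castRingHom ℚ)).eval x ∧ (height x : ℝ) ≤ T}

open Pool.Agent.W2helper36.HT in
lemma key (f : Polynomial ℤ) (hdeg : 5 ≤ f.natDegree)
    (hsep : (f.map (Int.castRingHom ℚ)).Separable) (hsplit : (f.map (Int.castRingHom ℚ)).Splits)
    (g : ℕ) (hg : g = (f.natDegree - 1) / 2) :
    ∃ (a : Fin (2 * g + 2) → ℤ × ℤ) (c : ℤ), (∀ i j, i ≠ j → det (a i) (a j) ≠ 0) ∧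
      (∀ i, IsCoprime (a i).1 (a i).2) ∧ c ≠ 0 ∧
      ∀ B T : ℝ, ∀ d ∈ twists f B T, Squarefree d ∧ |(d : ℝ)| ≤ B ∧ ∃ v : ℤ × ℤ,
        IsCoprime v.1 v.2 ∧ (nrm v : ℝ) ≤ T ∧ ∃ q : ℚ, q ≠ 0 ∧
          (c : ℚ) * ∏ i, (L (a i) v : ℚ) = d * q ^ 2 := by
  classical
  set F := f.map (Int.castRingHom ℚ) with hF
  have hinj : Function.Injective (Int.castRingHom ℚ) := Int.cast_injective
  have hnat : F.natDegree = f.natDegree := Polynomial.natDegree_map_eq_of_injective hinj f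
  have hlead : F.leadingCoeff = (f.leadingCoeff : ℚ) := by
    rw [hF, Polynomial.leadingCoeff_map_of_injective hinj]; rfl
  have hf0 : f ≠ 0 := by
    rintro rfl; simp at hdeg
  have hl0 : f.leadingCoeff ≠ 0 := Polynomial.leadingCoeff_ne_zero.mpr hf0
  have hnodup : F.roots.Nodup := Polynomial.nodup_roots hsep
  have hcard : F.roots.toFinset.card = f.natDegree := by
    rw [Multiset.toFinset_card_of_nodup hnodup, ← hnat, hsplit.natDegree_eq_card_roots]
  set n := f.natDegree with hn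
  let eqv := F.roots.toFinset.equivFinOfCardEq hcard
  let ρ : Fin n → ℚ := fun i => ((eqv.symm i : {x // x ∈ F.roots.toFinset}) : ℚ)
  have hρ : Function.Injective ρ := fun i j h => eqv.symm.injective (Subtype.ext h)
  have heval : ∀ x : ℚ, F.eval x = (f.leadingCoeff : ℚ) * ∏ i, (x - ρ i) := by
    intro x
    rw [hsplit.eval_eq_prod_roots, hlead]
    congr 1
    have h1 : (F.roots.map (fun r => x - r)).prod = ∏ r ∈ F.roots.toFinset, (x - r) := by
      rw [Finset.prod_multiset_map_count]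
      apply Finset.prod_congr rfl
      intro r hr
      rw [Multiset.count_eq_one_of_mem hnodup (Multiset.mem_toFinset.mp hr), pow_one]
    rw [h1, ← Finset.prod_coe_sort]
    exact (Equiv.prod_comp eqv.symm (fun r : {x // x ∈ F.roots.toFinset} => x - (r : ℚ))).symm
  have hgn : n = 2 * g + 1 ∨ n = 2 * g + 2 := by omega
  obtain ⟨a, ha, hac, hprod⟩ := forms_of_roots g n hgn ρ hρ
  set Δ : ℕ := ∏ i, (ρ i).den with hΔ
  have hΔ0 : Δ ≠ 0 := Finset.prod_ne_zero_iff.mpr (fun i _ => (ρ i).den_nz)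
  have hc : f.leadingCoeff * (Δ : ℤ) ≠ 0 := mul_ne_zero hl0 (by exact_mod_cast hΔ0)
  refine ⟨a, f.leadingCoeff * (Δ : ℤ), ha, hac, hc, ?_⟩
  rintro B T d ⟨hdB, hdsq, x, y, hy, hxy, hht⟩
  refine ⟨hdsq, hdB.le, (x.num, (x.den : ℤ)), ?_, ?_, y * Δ * (x.den : ℚ) ^ (g + 1), ?_, ?_⟩
  · rw [Int.isCoprime_iff_nat_coprime]; simpa using x.reduced
  · have h1 : nrm (x.num, (x.den : ℤ)) = height x := by
      simp [nrm, height]
    rw [h1]
    exact hht
  · have h1 : (Δ : ℚ) ≠ 0 := by exact_mod_cast hΔ0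
    have h2 : (x.den : ℚ) ≠ 0 := by exact_mod_cast x.den_nz
    exact mul_ne_zero (mul_ne_zero hy h1) (pow_ne_zero _ h2)
  · have hw : (x.den : ℤ) ≠ 0 := by exact_mod_cast x.den_nz
    rw [hprod x.num x.den hw]
    have h3 : ((x.num : ℤ) : ℚ) / ((x.den : ℤ) : ℚ) = x := by
      push_cast; exact Rat.num_div_den x
    rw [h3]
    have h4 : (∏ i, ((ρ i).den : ℚ)) = (Δ : ℚ) := by rw [hΔ]; push_cast; rfl
    rw [h4]
    have h5 := heval x
    rw [← hxy] at h5
    push_cast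
    calc (f.leadingCoeff : ℚ) * (Δ : ℚ) * ((Δ : ℚ) * (x.den : ℚ) ^ (2 * g + 2) * ∏ i, (x - ρ i))
        = (Δ : ℚ) ^ 2 * (x.den : ℚ) ^ (2 * g + 2) * ((f.leadingCoeff : ℚ) * ∏ i, (x - ρ i)) := by ring
      _ = (Δ : ℚ) ^ 2 * (x.den : ℚ) ^ (2 * g + 2) * ((d : ℚ) * y ^ 2) := by rw [h5]
      _ = _ := by ring

theorem result (f : Polynomial ℤ) (hdeg : 5 ≤ f.natDegree)
    (hsep : (f.map (Int.castRingHom ℚ)).Separable) (hsplit : (f.map (Int.castRingHom ℚ)).Splits)
    (g : ℕ) (hg : g = (f.natDegree - 1) / 2) :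
    (∀ A : ℝ, A < 5 / (6 * (g + 1)) → ∃ C : ℝ, ∀ B : ℝ, 1 ≤ B →
      ((twists f B (B ^ A)).ncard : ℝ) ≤ C * B ^ ((1 : ℝ) / (g + 1))) ∧
    (∀ ε R : ℝ, 0 < ε → ∃ C : ℝ, ∀ B : ℝ, 1 ≤ B →
      ((twists f B (R * B ^ ((5 : ℝ) / (6 * (g + 1))))).ncard : ℝ) ≤
        C * B ^ ((1 : ℝ) / (g + 1) + ε)) := by
  obtain ⟨a, c, ha, hac, hc, hkey⟩ := key f hdeg hsep hsplit g hg
  have hg2 : 2 ≤ g := by omega
  constructor
  · intro A hA
    obtain ⟨C, -, hC⟩ := Pool.Agent.W2helper36.HT.main_count2 hg2 a ha hac c hc A hA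
    exact ⟨C, fun B hB => hC B hB _ (hkey B (B ^ A))⟩
  · intro ε R hε
    obtain ⟨C, -, hC⟩ := Pool.Agent.W2helper36.HT.main_count (by omega : 1 ≤ g) a ha hac c hc ε hε
      (max R 1) (le_max_right _ _)
    refine ⟨C, fun B hB => hC B hB _ fun d hd => ?_⟩
    obtain ⟨h1, h2, v, h3, h4, h5⟩ := hkey B _ d hd
    refine ⟨h1, h2, v, h3, h4.trans ?_, h5⟩
    gcongr
    exact le_max_left _ _

end Pool.Agent.Results.MP_f4d5ac_nt.PointsOfSmallHeight
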